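import Pool.Agent.Helper69.ST.GoalsW

/-!
# ST, third part (MP_438009_an), packet NC: numbers, large `κ`
-/

open MeasureTheory Set Complex Metric Filter
open scoped ContDiff Topology ENNReal

namespace Pool.Agent.Helper14.ST.NC

open Pool.Agent.Helper69.ST

/-- `Good` holds between `0` and `j₂` if it holds at `0` and `j₂` (`κ ≤ 1`). -/
theorem good_btw (p κ T j₁ j₂ j : ℝ) (hκ : κ ≤ 1) (h1 : Good p κ T j₁) (h2 : Good p κ T j₂)
    (ha : j₁ ≤ j) (hb : j ≤ j₂) : Good p κ T j := by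
  obtain ⟨a1, a2, a3⟩ := h1
  obtain ⟨b1, b2, b3⟩ := h2
  rcases eq_or_lt_of_le (ha.trans hb) with h | h
  · have hj : j = j₁ := le_antisymm (by linarith) ha
    subst hj
    exact ⟨a1, a2, a3⟩
  · refine ⟨by linarith, ?_, ?_⟩
    · have e : (j₂ - j₁) * (T - p + j - 2 * j * κ) =
          (j₂ - j) * (T - p + j₁ - 2 * j₁ * κ) + (j - j₁) * (T - p + j₂ - 2 * j₂ * κ) := by ring
      have : 0 ≤ (j₂ - j₁) * (T - p + j - 2 * j * κ) := by
        rw [e]
        have := mul_nonneg (by linarith : 0 ≤ j₂ - j) a2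
        have := mul_nonneg (by linarith : 0 ≤ j - j₁) b2
        linarith
      exact nonneg_of_mul_nonneg_right this (by linarith)
    · have e : (j₂ - j₁) * ((T - j) * (T - p + j - 2 * j * κ) - j ^ 2 * κ) =
          (j₂ - j) * ((T - j₁) * (T - p + j₁ - 2 * j₁ * κ) - j₁ ^ 2 * κ) +
          (j - j₁) * ((T - j₂) * (T - p + j₂ - 2 * j₂ * κ) - j₂ ^ 2 * κ) +
          (1 - κ) * ((j - j₁) * (j₂ - j) * (j₂ - j₁)) := by ring
      have : 0 ≤ (j₂ - j₁) * ((T - j) * (T - p + j - 2 * j * κ) - j ^ 2 * κ) := by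
        rw [e]
        have := mul_nonneg (by linarith : 0 ≤ j₂ - j)
          (by linarith : 0 ≤ (T - j₁) * (T - p + j₁ - 2 * j₁ * κ) - j₁ ^ 2 * κ)
        have := mul_nonneg (by linarith : 0 ≤ j - j₁)
          (by linarith : 0 ≤ (T - j₂) * (T - p + j₂ - 2 * j₂ * κ) - j₂ ^ 2 * κ)
        have := mul_nonneg (by linarith : 0 ≤ 1 - κ)
          (mul_nonneg (mul_nonneg (by linarith : 0 ≤ j - j₁) (by linarith : 0 ≤ j₂ - j))
            (by linarith : 0 ≤ j₂ - j₁))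
        linarith
      have := nonneg_of_mul_nonneg_right this (by linarith)
      linarith

theorem t : S_NC := by
  intro p k κ T hp h43 h23 hκ0 hκ1 hT
  have hpR : (40 : ℝ) ≤ p := by exact_mod_cast hp
  have h43R : 4 * (p : ℝ) ≤ 3 * k := by exact_mod_cast h43
  have h23N : 2 * k ≤ 3 * p + 2 := by omega
  have h23R : 2 * (k : ℝ) ≤ 3 * p + 2 := by exact_mod_cast h23N
  obtain ⟨P, hP⟩ : ∃ P : ℝ, P = p := ⟨_, rfl⟩
  obtain ⟨Q, hQ⟩ : ∃ Q : ℝ, Q = k := ⟨_, rfl⟩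
  rw [← hP] at hpR h43R h23R
  rw [← hQ] at h43R h23R hT
  rw [← hP]
  -- products with κ
  have m1 : 0 ≤ (κ - 38 / 100) * (3 * Q - 4 * P) := mul_nonneg (by linarith) (by linarith)
  have m2 : 0 ≤ (κ - 38 / 100) * (3 * P + 2 - 2 * Q) := mul_nonneg (by linarith) (by linarith)
  have m3 : 0 ≤ (κ - 38 / 100) * (P - 40) := mul_nonneg (by linarith) (by linarith)
  have m4 : 0 ≤ (κ - 38 / 100) * Q := mul_nonneg (by linarith) (by linarith)
  have hT1 : 7559552 / 10000000 * Q ≤ T := by nlinarith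
  obtain ⟨j, hj⟩ : ∃ j : ℝ, j = (Q - P + 1) / 2 := ⟨_, rfl⟩
  have hQj : Q = 2 * j + P - 1 := by rw [hj]; ring
  have hj0 : 0 ≤ j := by rw [hj]; linarith
  have hj1 : j ≤ 11 / 40 * P := by rw [hj]; linarith
  have hTj : 4 / 5 * P ≤ T - j := by rw [hj]; linarith
  have hS : 11 / 40 * (j * κ) ≤ 4 / 5 * (T - P + j - 2 * j * κ) := by
    have e1 : j * κ = (Q - P + 1) / 2 * κ := by rw [hj]
    have e2 : 2 * j * κ = (Q - P + 1) * κ := by rw [hj]; ring
    rw [e2, e1, hj]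
    nlinarith
  have hκ : 0 ≤ κ := by linarith
  have hjκ : 0 ≤ j * κ := mul_nonneg hj0 hκ
  have hS0 : 0 ≤ T - P + j - 2 * j * κ := by linarith
  have hG2 : Good P κ T j := by
    refine ⟨by linarith, hS0, ?_⟩
    calc j ^ 2 * κ = j * (j * κ) := by ring
      _ ≤ (11 / 40 * P) * (j * κ) := mul_le_mul_of_nonneg_right hj1 hjκ
      _ = P * (11 / 40 * (j * κ)) := by ring
      _ ≤ P * (4 / 5 * (T - P + j - 2 * j * κ)) :=
          mul_le_mul_of_nonneg_left hS (by linarith)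
      _ = (4 / 5 * P) * (T - P + j - 2 * j * κ) := by ring
      _ ≤ (T - j) * (T - P + j - 2 * j * κ) := mul_le_mul_of_nonneg_right hTj hS0
  have hG1 : Good P κ T 0 := by
    have hPT : P ≤ T := by linarith
    refine ⟨by linarith, by linarith, ?_⟩
    have : 0 ≤ T * (T - P) := mul_nonneg (by linarith) (by linarith)
    nlinarith
  refine ⟨Finset.Icc (-(((k - p + 1) / 2 : ℕ) : ℤ)) (((k - p + 1) / 2 : ℕ) : ℤ), ?_, ?_, ?_⟩
  · intro l hl
    rw [Finset.mem_Icc] at hl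
    omega
  · rw [Int.card_Icc]
    omega
  · intro l hl
    rw [Finset.mem_Icc] at hl
    refine good_btw P κ T 0 j _ hκ1 hG1 hG2 (abs_nonneg _) ?_
    have h6 : 2 * |l| ≤ (k : ℤ) - p + 1 := by
      rcases abs_cases l with h | h <;> omega
    have h7 : 2 * |(l : ℝ)| ≤ (k : ℝ) - p + 1 := by exact_mod_cast h6
    rw [hj, hP, hQ]
    linarith

end Pool.Agent.Helper14.ST.NC
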