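import Pool.Agent.Helper69.ST.GoalsR
import Pool.Agent.Helper32.CN.Univalent

/-!
# ST, second part (MP_438009_an), packet RM: Riemann's theorem
-/

open MeasureTheory Set Complex Metric Filter
open scoped ContDiff Topology ENNReal

namespace Pool.Agent.Helper14.ST.RM

open Pool.Agent.Helper69.ST

theorem t (hX : S_XT) (hO : S_ON) : S_RM := by
  intro U hU hb hc hs
  obtain ⟨z₀, hz₀⟩ := hc.nonempty
  obtain ⟨f, hf, hd, hmax⟩ := hX U z₀ hU hb hc hz₀
  have him : f '' U = ball 0 1 := by
    apply Subset.antisymm hf.maps.image_subset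
    intro a ha
    by_contra hcon
    have ha' : ‖a‖ < 1 := by simpa using ha
    obtain ⟨h, hh, hlt⟩ := hO U z₀ a f hU hz₀ hs hf hd ha' hcon
    exact absurd (hmax h hh) (not_le.2 hlt)
  have hl : ∀ z ∈ U, Function.invFunOn f U (f z) = z := fun z hz => hf.inj.leftInvOn_invFunOn hz
  have hr : ∀ w ∈ ball (0 : ℂ) 1, Function.invFunOn f U w ∈ U ∧ f (Function.invFunOn f U w) = w := by
    intro w hw
    rw [← him] at hw
    exact ⟨Function.invFunOn_mem hw, Function.invFunOn_eq hw⟩
  refine ⟨Function.invFunOn f U, ?_, ?_, ?_⟩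
  · intro w hw
    obtain ⟨h1, h2⟩ := hr w hw
    set z := Function.invFunOn f U w with hz
    obtain ⟨r, hr0, hrU⟩ := Metric.isOpen_iff.1 hU z h1
    have hd' : DifferentiableOn ℂ f (ball z r) := hf.diff.mono hrU
    have hi' : InjOn f (ball z r) := hf.inj.mono hrU
    obtain ⟨φ, hφ, hφl, -⟩ := Pool.Agent.Helper32.CN.exists_inverse hd' hi'
    have hopen : IsOpen (f '' ball z r) :=
      Pool.Agent.Helper32.CN.isOpen_image hd' hi' isOpen_ball subset_rfl
    have hwm : w ∈ f '' ball z r := ⟨z, mem_ball_self hr0, h2⟩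
    have h3 : DifferentiableAt ℂ φ w := hφ.differentiableAt (hopen.mem_nhds hwm)
    have h4 : Function.invFunOn f U =ᶠ[𝓝 w] φ := by
      filter_upwards [hopen.mem_nhds hwm] with v hv
      obtain ⟨y, hy, rfl⟩ := hv
      rw [hl y (hrU hy), hφl y hy]
    exact (h3.congr_of_eventuallyEq h4).differentiableWithinAt
  · intro w hw w' hw' he
    rw [← (hr w hw).2, ← (hr w' hw').2, he]
  · apply Subset.antisymm
    · rintro _ ⟨w, hw, rfl⟩
      exact (hr w hw).1
    · intro z hz
      exact ⟨f z, hf.maps hz, hl z hz⟩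

end Pool.Agent.Helper14.ST.RM
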